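import Pool.Agent.Helper50.HT.Stmts

/-!
# Row KD2 of the sheet HT (MP_56acfd_mp)
-/

set_option autoImplicit false

namespace Pool.Agent.Helper38.HT

open MeasureTheory Filter Pool.Agent.Helper95 Pool.Agent.Helper95.PW Pool.Agent.Helper95.LN
open Pool.Agent.Helper50.HT

theorem kd2_nr (u p : R3) (s : ℝ) : nr (u + s • p) =
    Real.sqrt ((u 0 + s * p 0) ^ 2 + (u 1 + s * p 1) ^ 2 + (u 2 + s * p 2) ^ 2) := by
  unfold nr
  simp only [Pi.add_apply, Pi.smul_apply, smul_eq_mul]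

theorem kd2_lin (a b t : ℝ) : HasDerivAt (fun s : ℝ => a + s * b) b t := by
  have h := ((hasDerivAt_id t).mul_const b).const_add a
  simpa using h

theorem kd2_sq (u p : R3) (t : ℝ) : HasDerivAt
    (fun s : ℝ => (u 0 + s * p 0) ^ 2 + (u 1 + s * p 1) ^ 2 + (u 2 + s * p 2) ^ 2)
    (2 * ((u 0 + t * p 0) * p 0 + (u 1 + t * p 1) * p 1 + (u 2 + t * p 2) * p 2)) t := by
  have h0 := (kd2_lin (u 0) (p 0) t).pow 2
  have h1 := (kd2_lin (u 1) (p 1) t).pow 2
  have h2 := (kd2_lin (u 2) (p 2) t).pow 2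
  have h := (h0.add h1).add h2
  refine h.congr_deriv ?_
  simp only [Nat.cast_ofNat, Nat.add_one_sub_one, pow_one]
  ring

theorem kd2_B (u p : R3) (t : ℝ) : HasDerivAt
    (fun s : ℝ => (u 0 + s * p 0) * p 0 + (u 1 + s * p 1) * p 1 + (u 2 + s * p 2) * p 2)
    (p 0 ^ 2 + p 1 ^ 2 + p 2 ^ 2) t := by
  have h0 := (kd2_lin (u 0) (p 0) t).mul_const (p 0)
  have h1 := (kd2_lin (u 1) (p 1) t).mul_const (p 1)
  have h2 := (kd2_lin (u 2) (p 2) t).mul_const (p 2)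
  have h := (h0.add h1).add h2
  refine h.congr_deriv ?_
  ring

theorem kd2_dnr (u p : R3) (t : ℝ) (h0 : nr (u + t • p) ≠ 0) :
    HasDerivAt (fun s : ℝ => nr (u + s • p))
      (((u 0 + t * p 0) * p 0 + (u 1 + t * p 1) * p 1 + (u 2 + t * p 2) * p 2) /
        nr (u + t • p)) t := by
  have e : (fun s : ℝ => nr (u + s • p)) = fun s : ℝ =>
      Real.sqrt ((u 0 + s * p 0) ^ 2 + (u 1 + s * p 1) ^ 2 + (u 2 + s * p 2) ^ 2) := by
    funext s
    exact kd2_nr u p s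
  have hne : (u 0 + t * p 0) ^ 2 + (u 1 + t * p 1) ^ 2 + (u 2 + t * p 2) ^ 2 ≠ 0 := by
    intro h
    apply h0
    rw [kd2_nr, h, Real.sqrt_zero]
  have h := (kd2_sq u p t).sqrt hne
  rw [e]
  refine h.congr_deriv ?_
  rw [kd2_nr]
  exact mul_div_mul_left _ _ two_ne_zero

theorem KD2 : ST_KD2 := by
  intro u p t h0
  obtain ⟨N, hN⟩ : ∃ N : ℝ, N = nr (u + t • p) := ⟨_, rfl⟩
  obtain ⟨B, hB⟩ : ∃ B : ℝ, B =
    (u 0 + t * p 0) * p 0 + (u 1 + t * p 1) * p 1 + (u 2 + t * p 2) * p 2 := ⟨_, rfl⟩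
  have hd := kd2_dnr u p t h0
  have hBd := kd2_B u p t
  rw [← hN, ← hB] at hd
  rw [← hN] at h0
  have h0' : nr (u + t • p) ≠ 0 := by rw [← hN]; exact h0
  constructor
  · rw [← hN, ← hB]
    have h := hd.inv h0'
    rw [← hN] at h
    have e : (fun s : ℝ => 1 / nr (u + s • p)) = fun s : ℝ => (nr (u + s • p))⁻¹ := by
      funext s
      rw [one_div]
    rw [e]
    refine h.congr_deriv ?_
    field_simp
  · have h3 := hd.pow 3
    have h := (hBd.div h3 (pow_ne_zero 3 h0')).neg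
    refine h.congr_deriv ?_
    unfold K2
    simp only [Pi.add_apply, Pi.smul_apply, smul_eq_mul, Pi.pow_apply]
    rw [← hN, ← hB]
    simp only [Nat.cast_ofNat, Nat.add_one_sub_one]
    field_simp
    ring

end Pool.Agent.Helper38.HT
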