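import Pool.Agent.Helper50.HT.Stmts2
import Pool.Agent.Helper38.HN.TUZ

/-!
# Row TLK of the sheet HT (MP_56acfd_mp)
-/

set_option autoImplicit false

namespace Pool.Agent.Helper38.HT

open MeasureTheory Filter Pool.Agent.Helper95 Pool.Agent.Helper95.PW Pool.Agent.Helper95.LN
open Pool.Agent.Helper26.HN Pool.Agent.Helper21.CF Pool.Agent.Helper21.LN
open Pool.Agent.Helper50.HT Pool.Agent.Helper38.HN

theorem le_third (x z : ℝ) (hx : 0 ≤ x) (h : x ^ 3 ≤ z) : x ≤ z ^ (1 / 3 : ℝ) := by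
  have h1 : (x ^ 3) ^ (1 / 3 : ℝ) = x := by
    rw [← Real.rpow_natCast, ← Real.rpow_mul hx]
    norm_num
  rw [← h1]
  exact Real.rpow_le_rpow (by positivity) h (by norm_num)

/-- row TLK -/
theorem TLK (h1 : ST_ESB) (h2 : ST_AED) (h3 : ST_NEZ) (h4 : ST_INZ) (h5 : ST_QHM)
    (h6 : ST_INTM) : ST_TLK := by
  intro c d hc hd
  obtain ⟨C1, hC1, H1⟩ := h3
  obtain ⟨A, hA⟩ : ∃ A : ℝ, A = 32 / c := ⟨_, rfl⟩
  have hA0 : 0 < A := by rw [hA]; positivity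
  obtain ⟨a, ha⟩ : ∃ a : ℝ, a = (2 * A) ^ (1 / 2 : ℝ) := ⟨_, rfl⟩
  have ha0 : 0 < a := by rw [ha]; positivity
  obtain ⟨K, hK⟩ : ∃ K : ℝ, K = 1 + 16 * (C1 * a) / c := ⟨_, rfl⟩
  have hK1 : 1 ≤ K := by
    rw [hK]
    have : 0 ≤ 16 * (C1 * a) / c := by positivity
    linarith
  have hK0 : 0 < K := by linarith
  obtain ⟨C2, hC2, H2⟩ := H1 d K hd hK0
  obtain ⟨x1, hx1⟩ : ∃ x1 : ℝ, x1 = 16 * C2 / c := ⟨_, rfl⟩
  obtain ⟨x2, hx2⟩ : ∃ x2 : ℝ, x2 = 2 * A / d := ⟨_, rfl⟩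
  have hx10 : 0 ≤ x1 := by rw [hx1]; positivity
  have hx20 : 0 ≤ x2 := by rw [hx2]; positivity
  refine ⟨3 * c / (16 * K), 1 + 36 / c + x1 ^ 3 + x2 ^ 3, by positivity, ?_, ?_⟩
  · have : 0 ≤ 36 / c := by positivity
    have : 0 ≤ x1 ^ 3 := by positivity
    have : 0 ≤ x2 ^ 3 := by positivity
    linarith
  intro n M X Z z E u hz hM hN hZ hS hE hu hanti hsq1 hsq hres
  have p1 : 0 ≤ 36 / c := by positivity
  have p2 : 0 ≤ x1 ^ 3 := by positivity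
  have p3 : 0 ≤ x2 ^ 3 := by positivity
  have hz1 : 1 ≤ z := by linarith
  have hz0 : 0 < z := by linarith
  have hM1 : (1 : ℝ) ≤ M := by exact_mod_cast hM
  have hnz := nuc_le Z z hN hZ
  have ht1 := le_third x1 z hx10 (by linarith)
  have ht2 := le_third x2 z hx20 (by linarith)
  obtain ⟨w, hw⟩ : ∃ w : ℝ, w = z ^ (1 / 3 : ℝ) := ⟨_, rfl⟩
  rw [← hw] at ht1 ht2
  have hw0 : 0 < w := by rw [hw]; positivity
  have hwi : z ^ (-(1 / 3) : ℝ) = w⁻¹ := by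
    rw [hw, ← Real.rpow_neg hz0.le]
  obtain ⟨b, hb⟩ : ∃ b : ℝ, b = A * w⁻¹ := ⟨_, rfl⟩
  have hb0 : 0 < b := by rw [hb]; positivity
  have hbd : 2 * b ≤ d := by
    rw [hb]
    have e1 : 2 * A ≤ d * w := by
      rw [hx2, div_le_iff₀ hd] at ht2
      linarith
    have e2 : 2 * (A * w⁻¹) = 2 * A * w⁻¹ := by ring
    rw [e2]
    calc 2 * A * w⁻¹ ≤ d * w * w⁻¹ := mul_le_mul_of_nonneg_right e1 (by positivity)
      _ = d := by field_simp
  have a1 := tuz_int h1 h2 h4 h6 z b d hz0.le hb0 (by linarith) n M X Z u hS hN hZ hu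
  have a2 := tls_Q h5 h6 X Z E 1 one_pos u hu
  have a3 := H2 n M X z (2 * b) u hz1 hnz hS (by positivity) hbd hu hanti hsq
  obtain ⟨S, hSd⟩ : ∃ S : ℝ, S = Pool.Agent.Helper95.PW.sq u := ⟨_, rfl⟩
  obtain ⟨Q, hQd⟩ : ∃ Q : ℝ, Q = z ^ (7 / 3 : ℝ) := ⟨_, rfl⟩
  have hQz : z ≤ Q := by
    rw [hQd]
    calc z = z ^ (1 : ℝ) := (Real.rpow_one z).symm
      _ ≤ z ^ (7 / 3 : ℝ) := Real.rpow_le_rpow_of_exponent_le hz1 (by norm_num)
  have hQ0 : 0 < Q := by linarith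
  rw [← hQd] at hE ⊢
  rw [← hSd] at a1 a2 hsq hsq1
  have k0 : 0 ≤ kin u := com_kin_nonneg u
  have b1 : (E + nucR X Z) * S ≤ -(c / 2 * (M * Q)) := by
    have g1 : (E + nucR X Z) * S ≤ -(c * (M * Q)) * S :=
      mul_le_mul_of_nonneg_right hE (by linarith)
    have g2 : c * (M * Q) * (1 / 2) ≤ c * (M * Q) * S :=
      mul_le_mul_of_nonneg_left hsq1 (by positivity)
    linarith
  have e1 : (w⁻¹) ^ (1 / 2 : ℝ) = z ^ (-(1 / 6) : ℝ) := by
    rw [← hwi, ← Real.rpow_mul hz0.le]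
    norm_num
  have e2 : z ^ (5 / 2 : ℝ) * z ^ (-(1 / 6) : ℝ) = Q := by
    rw [hQd, ← Real.rpow_add hz0]
    norm_num
  have e3 : z * w * z = Q := by
    rw [hw, hQd]
    have h : z ^ (7 / 3 : ℝ) = z ^ (1 + 1 / 3 + 1 : ℝ) := by norm_num
    rw [h, Real.rpow_add hz0, Real.rpow_add hz0, Real.rpow_one]
  have b2 : (1 + z) / b * n * S ≤ c / 8 * (M * Q) := by
    have c1 : (1 + z) / b ≤ 2 * z * w / A := by
      rw [hb, div_le_div_iff₀ (by positivity) hA0]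
      have g : 2 * z * w * (A * w⁻¹) = 2 * z * A := by field_simp
      rw [g]
      exact mul_le_mul_of_nonneg_right (by linarith) hA0.le
    have c4 : (1 + z) / b * n ≤ 2 * z * w / A * (z * M) :=
      mul_le_mul c1 hnz (by positivity) (by positivity)
    have c5 : 2 * z * w / A * (z * M) = c / 16 * (M * Q) := by
      rw [← e3, hA]
      field_simp
      ring
    rw [c5] at c4
    have c6 : (1 + z) / b * n * S ≤ c / 16 * (M * Q) * 2 :=
      mul_le_mul c4 hsq (by linarith) (by positivity)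
    refine c6.trans (le_of_eq ?_)
    ring
  have b3 : (C1 * K ^ (-(3 / 2) : ℝ) * z ^ (5 / 2 : ℝ) * (2 * b) ^ (1 / 2 : ℝ) +
      C2 * z ^ 2) * M ≤ c / 8 * (M * Q) := by
    have c1 : (2 * b) ^ (1 / 2 : ℝ) = a * z ^ (-(1 / 6) : ℝ) := by
      rw [hb, ← mul_assoc, Real.mul_rpow (by positivity) (by positivity), e1, ha]
    have c2 : K ^ (-(3 / 2) : ℝ) ≤ K⁻¹ := by
      rw [← Real.rpow_neg_one]
      exact Real.rpow_le_rpow_of_exponent_le hK1 (by norm_num)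
    rw [c1]
    have c5 : C1 * K ^ (-(3 / 2) : ℝ) * z ^ (5 / 2 : ℝ) * (a * z ^ (-(1 / 6) : ℝ)) =
        K ^ (-(3 / 2) : ℝ) * (C1 * a * Q) := by
      rw [← e2]
      ring
    rw [c5]
    have c6 : K ^ (-(3 / 2) : ℝ) * (C1 * a * Q) ≤ K⁻¹ * (C1 * a * Q) :=
      mul_le_mul_of_nonneg_right c2 (by positivity)
    have c7 : K⁻¹ * (C1 * a * Q) ≤ c / 16 * Q := by
      have g1 : C1 * a ≤ c / 16 * K := by
        rw [hK]
        have : c / 16 * (1 + 16 * (C1 * a) / c) = c / 16 + C1 * a := by field_simp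
        rw [this]
        linarith
      calc K⁻¹ * (C1 * a * Q) = C1 * a * (K⁻¹ * Q) := by ring
        _ ≤ c / 16 * K * (K⁻¹ * Q) := mul_le_mul_of_nonneg_right g1 (by positivity)
        _ = c / 16 * Q := by field_simp
    have c8 : C2 * z ^ 2 ≤ c / 16 * Q := by
      have g1 : C2 ≤ c / 16 * w := by
        rw [hx1, div_le_iff₀ hc] at ht1
        linarith
      calc C2 * z ^ 2 ≤ c / 16 * w * z ^ 2 := mul_le_mul_of_nonneg_right g1 (by positivity)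
        _ = c / 16 * Q := by rw [← e3]; ring
    calc (K ^ (-(3 / 2) : ℝ) * (C1 * a * Q) + C2 * z ^ 2) * M ≤ (c / 8 * Q) * M :=
          mul_le_mul_of_nonneg_right (by linarith) (by positivity)
      _ = c / 8 * (M * Q) := by ring
  have b4 : (9 / 4 : ℝ) ≤ c / 16 * (M * Q) := by
    have g1 : 36 / c ≤ M * Q := by
      have : z ≤ M * Q := by nlinarith
      linarith
    rw [div_le_iff₀ hc] at g1
    linarith
  have b5 : 1 / (4 * (1 : ℝ)) * resM X Z E u ≤ 1 / 4 := by linarith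
  have hfin : 3 / 16 * c * (M * Q) ≤ K * kin u := by
    have hr : (E + nucR X Z) * S = E * S + nucR X Z * S := by ring
    linarith
  rw [div_mul_eq_mul_div, div_le_iff₀ (by positivity)]
  linarith

end Pool.Agent.Helper38.HT
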